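import Pool.Agent.helper42.CQ.SpecC

/-!
# Row AL3: crossing
-/

set_option autoImplicit false

namespace Pool.Agent.helper42.CQ

open Finset Pool.Agent.helper24.CG

lemma AL3_hist {N m : ℕ} {H₂ H₁ : List (ES N)} (h : Hist N m (H₂ ++ H₁)) : Hist N m H₁ :=
  ⟨(List.pairwise_append.1 h.disj).2.1, fun E hE => h.mem E (List.mem_append_right _ hE)⟩

lemma AL3_hist_drop {N m : ℕ} {H : List (ES N)} (h : Hist N m H) (k : ℕ) :
    Hist N m (H.drop k) := by
  have h' : Hist N m (H.take k ++ H.drop k) := by rw [List.take_append_drop]; exact h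
  exact AL3_hist h'

lemma AL3_hist_one {N m : ℕ} {E : ES N} {H : List (ES N)} (h : Hist N m (E :: H)) :
    Hist N m [E] :=
  ⟨List.pairwise_singleton _ _, fun F hF => h.mem F (by
    rw [List.mem_singleton] at hF; rw [hF]; exact List.mem_cons_self)⟩

lemma AL3_step {α : Type} (H : List α) (t : ℕ) (ht : t < H.length) :
    ∃ E, H.drop (H.length - (t + 1)) = E :: H.drop (H.length - t) := by
  have h1 : H.length - (t + 1) < H.length := by omega
  refine ⟨H[H.length - (t + 1)], ?_⟩
  have h2 : H.length - t = H.length - (t + 1) + 1 := by omega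
  rw [h2]
  exact List.drop_eq_getElem_cons h1

theorem AL3 (hCRS : CRS_stmt) (hGRW : GRW_stmt) (hREL : REL_stmt) (hWTA : WTA_stmt) :
    AL3_stmt := by
  intro N m b M s l κ H K hm hb hM hs hH hl hκ
  obtain ⟨-, -, -, -, -, -, -, hmono, hsub, -, -, hnil⟩ := hREL N M K hM
  have key := hCRS (Fin N) K H.length (fun t => Gs M K s (H.drop (H.length - t)))
    (fun t e => wt b m K (H.drop (H.length - t)) e) l κ (m : ℝ) (2 * m * s) hl hκ
    (fun t _ => hsub s _)
    (by
      intro t ht
      obtain ⟨E, hE⟩ := AL3_step H t ht
      show Gs M K s (H.drop (H.length - t)) ⊆ Gs M K s (H.drop (H.length - (t + 1)))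
      rw [hE]
      exact hmono s [E] _)
    (by
      intro t ht
      obtain ⟨E, hE⟩ := AL3_step H t ht
      show (Gs M K s (H.drop (H.length - (t + 1))) \ Gs M K s (H.drop (H.length - t))).card ≤ _
      have hh : Hist N m (H.drop (H.length - (t + 1))) := AL3_hist_drop hH _
      rw [hE] at hh ⊢
      exact hGRW N m M s K _ E hh hM)
    (by
      show Gs M K s (H.drop (H.length - 0)) = ∅
      rw [Nat.sub_zero, List.drop_length]
      exact hnil s hs)
    (by
      intro e
      show wt b m K (H.drop (H.length - 0)) e = 0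
      rw [Nat.sub_zero, List.drop_length]
      rfl)
    (fun t e => ((hWTA N m b K _ hm hb (AL3_hist_drop hH (H.length - t))).1 e).1)
    (by
      intro t ht e
      obtain ⟨E, hE⟩ := AL3_step H t ht
      show wt b m K (H.drop (H.length - t)) e ≤ wt b m K (H.drop (H.length - (t + 1))) e
      have hh : Hist N m (H.drop (H.length - (t + 1))) := AL3_hist_drop hH _
      rw [hE] at hh ⊢
      have h1 := (hWTA N m b K _ hm hb hh).2.1 [E] (H.drop (H.length - t)) e rfl
      have h2 := ((hWTA N m b K _ hm hb (AL3_hist_one hh)).1 e).1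
      linarith)
    (by
      intro t ht
      obtain ⟨E, hE⟩ := AL3_step H t ht
      show ∑ e ∈ K.powersetCard 2, (wt b m K (H.drop (H.length - (t + 1))) e -
        wt b m K (H.drop (H.length - t)) e) ≤ (m : ℝ)
      have hh : Hist N m (H.drop (H.length - (t + 1))) := AL3_hist_drop hH _
      rw [hE] at hh ⊢
      have hone := hWTA N m b K _ hm hb (AL3_hist_one hh)
      have h0 : ∀ e ∈ K.powersetCard 2, wt b m K (E :: H.drop (H.length - t)) e -
          wt b m K (H.drop (H.length - t)) e ≤ if e ∈ E then (1 : ℝ) else 0 := by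
        intro e _
        have h1 := (hWTA N m b K _ hm hb hh).2.1 [E] (H.drop (H.length - t)) e rfl
        split_ifs with he
        · have := (hone.1 e).2
          linarith
        · have := hone.2.2.2.1 e (by
            intro F hF
            rw [List.mem_singleton] at hF
            rw [hF]
            exact he)
          linarith
      calc ∑ e ∈ K.powersetCard 2, (wt b m K (E :: H.drop (H.length - t)) e -
          wt b m K (H.drop (H.length - t)) e)
          ≤ ∑ e ∈ K.powersetCard 2, (if e ∈ E then (1 : ℝ) else 0) := Finset.sum_le_sum h0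
        _ = (((K.powersetCard 2).filter fun e => e ∈ E).card : ℝ) := by
            rw [← Finset.sum_filter, Finset.sum_const, nsmul_eq_mul, mul_one]
        _ ≤ (E.card : ℝ) := by
            exact_mod_cast Finset.card_le_card (fun e he => (Finset.mem_filter.1 he).2)
        _ ≤ (m : ℝ) := by
            exact_mod_cast (hh.mem E List.mem_cons_self).2.2)
  rcases key with ⟨t, ht1, htn, A, B, hGA, hAB, hBK, hA, hB, hmin, hAle⟩ | ⟨Y, hGY, hYK, hY, hle⟩
  · left
    refine ⟨H.take (H.length - t), H.drop (H.length - t), A, B, (List.take_append_drop _ _).symm,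
      ?_, hGA, hAB, hBK, ?_, hB, hmin, ?_⟩
    · intro h0
      have := congrArg List.length h0
      rw [List.length_drop, List.length_nil] at this
      omega
    · push_cast at hA
      exact hA
    · push_cast at hAle
      exact hAle
  · right
    have hn : H.drop (H.length - H.length) = H := by
      rw [Nat.sub_self, List.drop_zero]
    have hGY' : Gs M K s (H.drop (H.length - H.length)) ⊆ Y := hGY
    have hle' : (Y.card : ℝ) * l - ∑ e ∈ Y.powersetCard 2,
        wt b m K (H.drop (H.length - H.length)) e ≤
        (K.card : ℝ) * l - ∑ e ∈ K.powersetCard 2,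
          wt b m K (H.drop (H.length - H.length)) e := hle
    rw [hn] at hGY' hle'
    exact ⟨Y, hGY', hYK, hY, hle'⟩

end Pool.Agent.helper42.CQ
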